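import Pool.Agent.CYL.PF.Grow

/-! # CYL, part D4: restriction of a transition matrix to a class of states

`K f t` is the weight of the transition `f → t`. States off `X` never come back to `X`, and from the
class `C ⊆ X` no state of `X` off `C` is reached. Then the powers of `K` between states of `C` are the
powers of the matrix restricted to `C`. With a nonnegative left eigenvector supported by `C` and one
power positive on `C × C` this gives the growth of the powers. -/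

open Filter Topology Finset

namespace Pool.Agent.CYL.G

open Pool.Agent.CYL.PF

variable {ι : Type*} [Fintype ι] [DecidableEq ι]

/-- the class `C` is stable inside of `X`, the complement of `X` is absorbing -/
structure Stab (K : Matrix ι ι ℝ) (X C : ι → Prop) : Prop where
  sub : ∀ f, C f → X f
  out : ∀ f t, ¬ X f → X t → K f t = 0
  st : ∀ f t, C f → X t → ¬ C t → K f t = 0

open Classical in
/-- the transposed restricted matrix -/
noncomputable def rst (K : Matrix ι ι ℝ) (C : ι → Prop) : Matrix ι ι ℝ :=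
  Matrix.of fun t f => if C t ∧ C f then K f t else 0

omit [Fintype ι] [DecidableEq ι] in
theorem rst_apply {K : Matrix ι ι ℝ} {C : ι → Prop} {t f : ι} (ht : C t) (hf : C f) :
    rst K C t f = K f t := by
  unfold rst
  rw [Matrix.of_apply, if_pos ⟨ht, hf⟩]

omit [Fintype ι] [DecidableEq ι] in
theorem rst_zero_right {K : Matrix ι ι ℝ} {C : ι → Prop} {t f : ι} (hf : ¬ C f) :
    rst K C t f = 0 := by
  unfold rst
  rw [Matrix.of_apply, if_neg (fun h => hf h.2)]

omit [Fintype ι] [DecidableEq ι] in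
theorem rst_zero_left {K : Matrix ι ι ℝ} {C : ι → Prop} {t f : ι} (ht : ¬ C t) :
    rst K C t f = 0 := by
  unfold rst
  rw [Matrix.of_apply, if_neg (fun h => ht h.1)]

/-- powers between states of `C` -/
theorem Stab.pow {K : Matrix ι ι ℝ} {X C : ι → Prop} (S : Stab K X C) (N : ℕ) (f t : ι)
    (hf : C f) (ht : X t) : (C t → (K ^ N) f t = (rst K C ^ N) t f) ∧ (¬ C t → (K ^ N) f t = 0) := by
  classical
  induction N generalizing t with
  | zero =>
    rw [pow_zero, pow_zero, Matrix.one_apply, Matrix.one_apply]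
    constructor
    · intro _
      simp only [eq_comm]
    · intro h
      rw [if_neg]
      rintro rfl
      exact h hf
  | succ n ih =>
    have key : ∀ k, (K ^ n) f k * K k t = if C t then rst K C t k * (rst K C ^ n) k f else 0 := by
      intro k
      by_cases hX : X k
      · by_cases hk : C k
        · rw [(ih k hX).1 hk]
          split_ifs with h
          · rw [rst_apply h hk, mul_comm]
          · rw [S.st k t hk ht h, mul_zero]
        · rw [(ih k hX).2 hk, zero_mul]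
          split_ifs with h
          · rw [rst_zero_right hk, zero_mul]
          · rfl
      · rw [S.out k t hX ht, mul_zero]
        have hk : ¬ C k := fun h => hX (S.sub k h)
        split_ifs with h
        · rw [rst_zero_right hk, zero_mul]
        · rfl
    have h1 : (K ^ (n + 1)) f t =
        ∑ k, (if C t then rst K C t k * (rst K C ^ n) k f else 0) := by
      rw [pow_succ, Matrix.mul_apply]
      exact Finset.sum_congr rfl fun k _ => key k
    constructor
    · intro h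
      rw [h1, pow_succ', Matrix.mul_apply]
      exact Finset.sum_congr rfl fun k _ => by rw [if_pos h]
    · intro h
      rw [h1]
      exact Finset.sum_eq_zero fun k _ => by rw [if_neg h]

/-- the data of part D4 -/
structure Dat (K : Matrix ι ι ℝ) (X C : ι → Prop) (ψ : ι → ℝ) (Λ : ℝ) (n : ℕ) : Prop where
  stab : Stab K X C
  nonneg : ∀ f t, C f → C t → 0 ≤ K f t
  psi0 : ∀ f, 0 ≤ ψ f
  supp : ∀ f, ¬ C f → ψ f = 0
  ne : ∃ f, ψ f ≠ 0
  eig : ∀ t, C t → ∑ f, ψ f * K f t = Λ * ψ t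
  n0 : n ≠ 0
  prim : ∀ f t, C f → C t → 0 < (K ^ n) f t

variable {K : Matrix ι ι ℝ} {X C : ι → Prop} {ψ : ι → ℝ} {Λ : ℝ} {n : ℕ}

theorem Dat.eig' (D : Dat K X C ψ Λ n) (t : ι) : ∑ f, rst K C t f * ψ f = Λ * ψ t := by
  by_cases ht : C t
  · rw [← D.eig t ht]
    refine Finset.sum_congr rfl fun f _ => ?_
    by_cases hf : C f
    · rw [rst_apply ht hf, mul_comm]
    · rw [D.supp f hf, mul_zero, zero_mul]
  · rw [D.supp t ht, mul_zero]
    exact Finset.sum_eq_zero fun f _ => by rw [rst_zero_left ht, zero_mul]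

theorem Dat.prim' (D : Dat K X C ψ Λ n) {t f : ι} (ht : C t) (hf : C f) :
    0 < (rst K C ^ n) t f := by
  rw [← (D.stab.pow n f t hf (D.stab.sub t ht)).1 ht]
  exact D.prim f t hf ht

theorem Dat.rst_nonneg (D : Dat K X C ψ Λ n) (t f : ι) : 0 ≤ rst K C t f := by
  by_cases ht : C t
  · by_cases hf : C f
    · rw [rst_apply ht hf]
      exact D.nonneg f t hf ht
    · rw [rst_zero_right hf]
  · rw [rst_zero_left ht]

theorem Dat.pow_psi_pos (D : Dat K X C ψ Λ n) {t : ι} (ht : C t) : 0 < Λ ^ n * ψ t := by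
  obtain ⟨f, hf⟩ := D.ne
  have hCf : C f := by
    by_contra h
    exact hf (D.supp f h)
  rw [← pow_eigen D.eig' n t]
  refine Finset.sum_pos' (fun k _ => mul_nonneg (pow_nonneg_entry D.rst_nonneg n t k) (D.psi0 k))
    ⟨f, Finset.mem_univ f, mul_pos (D.prim' ht hCf) (lt_of_le_of_ne (D.psi0 f) (Ne.symm hf))⟩

theorem Dat.psi_pos (D : Dat K X C ψ Λ n) {t : ι} (ht : C t) : 0 < ψ t := by
  refine lt_of_le_of_ne (D.psi0 t) fun h => ?_
  have := D.pow_psi_pos ht
  rw [← h, mul_zero] at this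
  exact lt_irrefl _ this

theorem Dat.toPrim (D : Dat K X C ψ Λ n) : Prim (rst K C) C ψ Λ n where
  nonneg := D.rst_nonneg
  eig := D.eig'
  pos := fun _ h => D.psi_pos h
  zero := D.supp
  prim := fun _ _ hi hj => D.prim' hi hj

theorem Dat.lam_pos (D : Dat K X C ψ Λ n) : 0 < Λ := by
  obtain ⟨f, hf⟩ := D.ne
  have hCf : C f := by
    by_contra h
    exact hf (D.supp f h)
  exact D.toPrim.lam_pos D.n0 hCf

/-- bounds for one entry -/
theorem Dat.bounds (D : Dat K X C ψ Λ n) : ∃ c K' : ℝ, 0 < c ∧ 0 < K' ∧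
    (∀ N : ℕ, ∀ f t, C f → C t → (K ^ N) f t ≤ K' * Λ ^ N) ∧
    ∀ N : ℕ, n ≤ N → ∀ f t, C f → C t → c * Λ ^ N ≤ (K ^ N) f t := by
  classical
  have hΛ := D.lam_pos
  have hP := D.toPrim
  have hup : ∀ p : ι × ι, ∃ b : ℝ, 0 < b ∧ (C p.1 ∧ C p.2 → ∀ N : ℕ,
      (rst K C ^ N) p.1 p.2 ≤ b * Λ ^ N) := by
    intro p
    by_cases h : C p.1 ∧ C p.2
    · obtain ⟨b, h1, h2⟩ := hP.upper h.1 h.2
      exact ⟨b, h1, fun _ => h2⟩
    · exact ⟨1, one_pos, fun h' => absurd h' h⟩
  have hlo : ∀ p : ι × ι, ∃ c : ℝ, 0 < c ∧ (C p.1 ∧ C p.2 → ∀ N : ℕ, n ≤ N →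
      c * Λ ^ N ≤ (rst K C ^ N) p.1 p.2) := by
    intro p
    by_cases h : C p.1 ∧ C p.2
    · obtain ⟨b, h1, h2⟩ := hP.lower hΛ h.1 h.2
      exact ⟨b, h1, fun _ => h2⟩
    · exact ⟨1, one_pos, fun h' => absurd h' h⟩
  choose b hb0 hb using hup
  choose c hc0 hc using hlo
  obtain ⟨f0, -⟩ := D.ne
  obtain ⟨p0, -, hp0⟩ := Finset.exists_min_image (Finset.univ : Finset (ι × ι)) c
    ⟨(f0, f0), Finset.mem_univ _⟩
  obtain ⟨p1, -, hp1⟩ := Finset.exists_max_image (Finset.univ : Finset (ι × ι)) b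
    ⟨(f0, f0), Finset.mem_univ _⟩
  refine ⟨c p0, b p1, hc0 p0, hb0 p1, fun N f t hf ht => ?_, fun N hN f t hf ht => ?_⟩
  · rw [(D.stab.pow N f t hf (D.stab.sub t ht)).1 ht]
    refine (hb (t, f) ⟨ht, hf⟩ N).trans ?_
    exact mul_le_mul_of_nonneg_right (hp1 (t, f) (Finset.mem_univ _)) (pow_pos hΛ N).le
  · rw [(D.stab.pow N f t hf (D.stab.sub t ht)).1 ht]
    refine le_trans ?_ (hc (t, f) ⟨ht, hf⟩ N hN)
    exact mul_le_mul_of_nonneg_right (hp0 (t, f) (Finset.mem_univ _)) (pow_pos hΛ N).le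

/-- bounds for a bilinear combination with nonnegative nonzero vectors supported by the class -/
theorem Dat.bil (D : Dat K X C ψ Λ n) {v w : ι → ℝ} (hv : ∀ f, 0 ≤ v f) (hw : ∀ f, 0 ≤ w f)
    (hvC : ∀ f, ¬ C f → v f = 0) (hwC : ∀ f, ¬ C f → w f = 0) (hv0 : v ≠ 0) (hw0 : w ≠ 0) :
    ∃ c K' : ℝ, 0 < c ∧ 0 < K' ∧
    (∀ N : ℕ, ∑ f, ∑ t, v f * (K ^ N) f t * w t ≤ K' * Λ ^ N) ∧
    ∀ N : ℕ, n ≤ N → c * Λ ^ N ≤ ∑ f, ∑ t, v f * (K ^ N) f t * w t := by
  obtain ⟨c, b, hc, hb, h1, h2⟩ := D.bounds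
  have hs : ∀ {u : ι → ℝ}, (∀ f, 0 ≤ u f) → u ≠ 0 → 0 < ∑ f, u f := by
    intro u hu hu0
    obtain ⟨f, hf⟩ := Function.ne_iff.1 hu0
    exact Finset.sum_pos' (fun k _ => hu k) ⟨f, Finset.mem_univ f,
      lt_of_le_of_ne (hu f) (Ne.symm hf)⟩
  have e : ∀ r : ℝ, ∑ f, ∑ t, v f * r * w t = r * ((∑ f, v f) * ∑ t, w t) := by
    intro r
    rw [Finset.sum_mul_sum, Finset.mul_sum]
    refine Finset.sum_congr rfl fun f _ => ?_
    rw [Finset.mul_sum]
    exact Finset.sum_congr rfl fun t _ => by ring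
  have hV := hs hv hv0
  have hW := hs hw hw0
  refine ⟨c * ((∑ f, v f) * ∑ t, w t), b * ((∑ f, v f) * ∑ t, w t), by positivity, by positivity,
    fun N => ?_, fun N hN => ?_⟩
  · have : b * ((∑ f, v f) * ∑ t, w t) * Λ ^ N = ∑ f, ∑ t, v f * (b * Λ ^ N) * w t := by
      rw [e]; ring
    rw [this]
    refine Finset.sum_le_sum fun f _ => Finset.sum_le_sum fun t _ => ?_
    by_cases hf : C f
    · by_cases ht : C t
      · exact mul_le_mul_of_nonneg_right (mul_le_mul_of_nonneg_left (h1 N f t hf ht) (hv f)) (hw t)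
      · rw [hwC t ht, mul_zero, mul_zero]
    · rw [hvC f hf, zero_mul, zero_mul, zero_mul, zero_mul]
  · have : c * ((∑ f, v f) * ∑ t, w t) * Λ ^ N = ∑ f, ∑ t, v f * (c * Λ ^ N) * w t := by
      rw [e]; ring
    rw [this]
    refine Finset.sum_le_sum fun f _ => Finset.sum_le_sum fun t _ => ?_
    by_cases hf : C f
    · by_cases ht : C t
      · exact mul_le_mul_of_nonneg_right (mul_le_mul_of_nonneg_left (h2 N hN f t hf ht) (hv f))
          (hw t)
      · rw [hwC t ht, mul_zero, mul_zero]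
    · rw [hvC f hf, zero_mul, zero_mul, zero_mul, zero_mul]

/-- logarithmic growth rate -/
theorem Dat.tendsto (D : Dat K X C ψ Λ n) {v w : ι → ℝ} (hv : ∀ f, 0 ≤ v f) (hw : ∀ f, 0 ≤ w f)
    (hvC : ∀ f, ¬ C f → v f = 0) (hwC : ∀ f, ¬ C f → w f = 0) (hv0 : v ≠ 0) (hw0 : w ≠ 0) :
    Tendsto (fun N : ℕ => Real.log (∑ f, ∑ t, v f * (K ^ N) f t * w t) / N) atTop
      (𝓝 (Real.log Λ)) := by
  obtain ⟨c, b, hc, hb, h1, h2⟩ := D.bil hv hw hvC hwC hv0 hw0
  exact tendsto_log_div D.lam_pos hc hb h2 fun N _ => h1 N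

end Pool.Agent.CYL.G
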